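import Mathlib

/-! A configuration of shifts: clusters near an arithmetic progression such that the difference of two
elements of different clusters divides both. -/

set_option autoImplicit false

namespace Pool.Agent.J4.H49.EF

open Finset

theorem ne_big {d d' x y : ℤ} (hd : 1 ≤ d) (hd2 : d ≤ 10) (hd' : 1 ≤ d') (h1 : 100 * y < x)
    (h2 : 100 * (-y) < x) : d' * x ≠ d * y := by
  have hx : 0 < x := by omega
  intro h
  have h3 : x ≤ d' * x := by nlinarith
  rcases le_or_gt 0 y with hy | hy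
  · have h4 : d * y ≤ 10 * y := by nlinarith
    omega
  · have h4 : d * y < 0 := by nlinarith
    omega

theorem ne_big' {d d' x y : ℤ} (hd : 1 ≤ d) (hd2 : d ≤ 10) (hd' : 1 ≤ d') (h1 : 100 * y < x)
    (h2 : 100 * (-y) < x) : d' * (-x) ≠ d * y := by
  intro h
  apply ne_big (y := -y) hd hd2 hd' h2 (by simpa using h1)
  linarith

theorem eq_of_prop {d d' x y : ℤ} (hd : 1 ≤ d) (hd2 : d ≤ 10) (hd' : 1 ≤ d') (hd2' : d' ≤ 10)
    (h1 : 100 * (x - y) < x) (h2 : 100 * (y - x) < x) (h3 : 100 * (x - y) < y)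
    (h4 : 100 * (y - x) < y) (h : d' * x = d * y) : x = y := by
  have hx : 0 < x := by omega
  have hy : 0 < y := by omega
  rcases lt_trichotomy d d' with hlt | heq | hgt
  · exfalso
    have h5 : (d' - d) * x = d * (y - x) := by linarith
    have h6 : x ≤ (d' - d) * x := by nlinarith
    rcases le_or_gt 0 (y - x) with h7 | h7
    · have h8 : d * (y - x) ≤ 10 * (y - x) := by nlinarith
      omega
    · have h8 : d * (y - x) < 0 := by nlinarith
      omega
  · rw [heq] at h
    exact mul_left_cancel₀ (by omega) h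
  · exfalso
    have h5 : (d - d') * y = d' * (x - y) := by linarith
    have h6 : y ≤ (d - d') * y := by nlinarith
    rcases le_or_gt 0 (x - y) with h7 | h7
    · have h8 : d' * (x - y) ≤ 10 * (x - y) := by nlinarith
      omega
    · have h8 : d' * (x - y) < 0 := by nlinarith
      omega

/-- the small parts -/
theorem exists_e (n : ℕ) : ∃ e : ℕ → ℤ, (∀ i < n, 0 < e i) ∧
    (∀ i < n, ∀ j < n, i ≠ j → (e i - e j) ∣ e i) ∧
    (∀ i < n, ∀ j < n, ∀ k < n, 100 * (e i - e j) < e k) ∧
    (∀ i < n, ∀ j < n, ∀ k < n, ∀ l < n, i ≠ j → k ≠ l → ∀ d d' : ℤ, 1 ≤ d → d ≤ 10 → 1 ≤ d' →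
      d' ≤ 10 → d' * (e i - e j) = d * (e k - e l) → i = k ∧ j = l) := by
  induction n with
  | zero => exact ⟨fun _ => 1, by simp, by simp, by simp, by simp⟩
  | succ n ih =>
    obtain ⟨e, h1, h2, h3, h4⟩ := ih
    obtain ⟨A, hA⟩ : ∃ A : ℤ, A = 101 * ∏ i ∈ range n, e i := ⟨_, rfl⟩
    have hPpos : 0 < ∏ i ∈ range n, e i := Finset.prod_pos fun i hi => h1 i (mem_range.1 hi)
    have hdv : ∀ i < n, e i ∣ ∏ i ∈ range n, e i := fun i hi =>
      Finset.dvd_prod_of_mem e (mem_range.2 hi)
    have hAdv : ∀ i < n, e i ∣ A := fun i hi => by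
      rw [hA]
      exact (hdv i hi).mul_left _
    have hAbig : ∀ i < n, 100 * e i < A := fun i hi => by
      have h5 := Int.le_of_dvd hPpos (hdv i hi)
      have h6 := h1 i hi
      omega
    have hApos : 0 < A := by rw [hA]; positivity
    have hinj : ∀ i < n, ∀ j < n, e i = e j → i = j := by
      intro i hi j hj hij
      by_contra hne
      have h5 := h2 i hi j hj hne
      rw [hij, sub_self, zero_dvd_iff] at h5
      have := h1 j hj
      omega
    have hE : ∀ i < n, (fun i => if i < n then A + e i else A) i = A + e i := fun i hi => if_pos hi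
    have hEn : (fun i => if i < n then A + e i else A) n = A := if_neg (lt_irrefl n)
    refine ⟨fun i => if i < n then A + e i else A, ?_, ?_, ?_, ?_⟩
    · intro i hi
      rcases Nat.lt_succ_iff_lt_or_eq.1 hi with h | rfl
      · rw [hE i h]
        have := h1 i h
        omega
      · rw [hEn]
        exact hApos
    · intro i hi j hj hij
      rcases Nat.lt_succ_iff_lt_or_eq.1 hi with hi | rfl <;>
      rcases Nat.lt_succ_iff_lt_or_eq.1 hj with hj | rfl
      · rw [hE i hi, hE j hj]
        have e1 : A + e i - (A + e j) = e i - e j := by ring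
        rw [e1]
        have h5 := h2 i hi j hj hij
        exact dvd_add (h5.trans (hAdv i hi)) h5
      · rw [hE i hi, hEn]
        have e1 : A + e i - A = e i := by ring
        rw [e1]
        exact dvd_add (hAdv i hi) dvd_rfl
      · rw [hE j hj, hEn]
        have e1 : A - (A + e j) = -e j := by ring
        rw [e1, neg_dvd]
        exact hAdv j hj
      · exact absurd rfl hij
    · intro i hi j hj k hk
      have hk' : A ≤ (fun i => if i < n then A + e i else A) k := by
        rcases Nat.lt_succ_iff_lt_or_eq.1 hk with hk | rfl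
        · rw [hE k hk]
          have := h1 k hk
          omega
        · rw [hEn]
      refine lt_of_lt_of_le ?_ hk'
      rcases Nat.lt_succ_iff_lt_or_eq.1 hi with hi | rfl <;>
      rcases Nat.lt_succ_iff_lt_or_eq.1 hj with hj | rfl
      · rw [hE i hi, hE j hj]
        have h5 := h3 i hi j hj i hi
        have h6 := hAbig i hi
        have h7 := h1 i hi
        omega
      · rw [hE i hi, hEn]
        have h6 := hAbig i hi
        omega
      · rw [hE j hj, hEn]
        have h7 := h1 j hj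
        omega
      · omega
    · intro i hi j hj k hk l hl hij hkl d d' hd hd2 hd' hd2' h
      rcases Nat.lt_succ_iff_lt_or_eq.1 hi with hi | hi <;>
      rcases Nat.lt_succ_iff_lt_or_eq.1 hj with hj | hj <;>
      rcases Nat.lt_succ_iff_lt_or_eq.1 hk with hk | hk <;>
      rcases Nat.lt_succ_iff_lt_or_eq.1 hl with hl | hl
      · rw [hE i hi, hE j hj, hE k hk, hE l hl] at h
        exact h4 i hi j hj k hk l hl hij hkl d d' hd hd2 hd' hd2' (by linarith)
      · subst hl
        rw [hE i hi, hE j hj, hE k hk, hEn] at h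
        exfalso
        apply ne_big (d := d') (d' := d) (x := e k) (y := e i - e j) hd' hd2' hd
          (h3 i hi j hj k hk) (by have := h3 j hj i hi k hk; linarith)
        linarith
      · subst hk
        rw [hE i hi, hE j hj, hE l hl, hEn] at h
        exfalso
        apply ne_big' (d := d') (d' := d) (x := e l) (y := e i - e j) hd' hd2' hd
          (h3 i hi j hj l hl) (by have := h3 j hj i hi l hl; linarith)
        linarith
      · omega
      · subst hj
        rw [hE i hi, hE k hk, hE l hl, hEn] at h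
        exfalso
        apply ne_big (d := d) (d' := d') (x := e i) (y := e k - e l) hd hd2 hd'
          (h3 k hk l hl i hi) (by have := h3 l hl k hk i hi; linarith)
        linarith
      · subst hj
        subst hl
        rw [hE i hi, hE k hk, hEn] at h
        have h5 : d' * e i = d * e k := by linarith
        have h6 := eq_of_prop hd hd2 hd' hd2' (h3 i hi k hk i hi) (h3 k hk i hi i hi)
          (h3 i hi k hk k hk) (h3 k hk i hi k hk) h5
        exact ⟨hinj i hi k hk h6, rfl⟩
      · subst hj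
        subst hk
        rw [hE i hi, hE l hl, hEn] at h
        exfalso
        have h5 := h1 i hi
        have h6 := h1 l hl
        have h7 : 0 < d' * e i := by positivity
        have h8 : 0 < d * e l := by positivity
        linarith
      · omega
      · subst hi
        rw [hE j hj, hE k hk, hE l hl, hEn] at h
        exfalso
        apply ne_big' (d := d) (d' := d') (x := e j) (y := e k - e l) hd hd2 hd'
          (h3 k hk l hl j hj) (by have := h3 l hl k hk j hj; linarith)
        linarith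
      · subst hi
        subst hl
        rw [hE j hj, hE k hk, hEn] at h
        exfalso
        have h5 := h1 j hj
        have h6 := h1 k hk
        have h7 : 0 < d' * e j := by positivity
        have h8 : 0 < d * e k := by positivity
        linarith
      · subst hi
        subst hk
        rw [hE j hj, hE l hl, hEn] at h
        have h5 : d' * e j = d * e l := by linarith
        have h6 := eq_of_prop hd hd2 hd' hd2' (h3 j hj l hl j hj) (h3 l hl j hj j hj)
          (h3 j hj l hl l hl) (h3 l hl j hj l hl) h5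
        exact ⟨rfl, hinj j hj l hl h6⟩
      · omega
      · omega
      · omega
      · omega
      · omega

/-- the Chinese remainder theorem for coprime integer moduli -/
theorem crt {ι : Type*} [DecidableEq ι] (s : Finset ι) (F b : ι → ℤ) (Δ : ℤ)
    (h : ∀ p ∈ s, IsCoprime (F p) Δ) (h2 : ∀ p ∈ s, ∀ q ∈ s, p ≠ q → IsCoprime (F p) (F q)) :
    ∃ x : ℤ, Δ ∣ x ∧ ∀ p ∈ s, F p ∣ x + b p := by
  induction s using Finset.induction_on with
  | empty => exact ⟨0, dvd_zero _, by simp⟩
  | insert q s hq ih =>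
    obtain ⟨x, hx1, hx2⟩ := ih (fun p hp => h p (mem_insert_of_mem hp))
      (fun p hp r hr => h2 p (mem_insert_of_mem hp) r (mem_insert_of_mem hr))
    have hco : IsCoprime (Δ * ∏ p ∈ s, F p) (F q) := by
      apply IsCoprime.mul_left
      · exact (h q (mem_insert_self _ _)).symm
      · apply IsCoprime.prod_left
        intro p hp
        exact h2 p (mem_insert_of_mem hp) q (mem_insert_self _ _) (fun h => hq (h ▸ hp))
    obtain ⟨u, v, huv⟩ := hco
    refine ⟨x - u * (x + b q) * (Δ * ∏ p ∈ s, F p), ?_, ?_⟩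
    · exact dvd_sub hx1 ((dvd_mul_right _ _).mul_left _)
    · intro p hp
      rcases mem_insert.1 hp with rfl | hp
      · have e1 : x - u * (x + b p) * (Δ * ∏ p ∈ s, F p) + b p = (x + b p) * (v * F p) := by
          have : u * (Δ * ∏ p ∈ s, F p) = 1 - v * F p := by linarith
          calc x - u * (x + b p) * (Δ * ∏ p ∈ s, F p) + b p =
              (x + b p) - (x + b p) * (u * (Δ * ∏ p ∈ s, F p)) := by ring
            _ = _ := by rw [this]; ring
        rw [e1]
        exact (dvd_mul_left _ _).mul_left _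
      · have e1 : x - u * (x + b q) * (Δ * ∏ p ∈ s, F p) + b p =
            (x + b p) - (∏ p ∈ s, F p) * (u * (x + b q) * Δ) := by ring
        rw [e1]
        exact dvd_sub (hx2 p hp) ((Finset.dvd_prod_of_mem F hp).mul_right _)

/-- the shifts -/
theorem exists_a (n : ℕ) (g : Fin n → ℤ) (hg0 : ∀ i, 0 ≤ g i) (hg : ∀ i, g i ≤ 10) :
    ∃ (M : ℤ) (a : Fin n → ℤ), 0 < M ∧ (∀ i, 0 < a i) ∧ Function.Injective a ∧
      ∀ i j, g j < g i → (a i - a j) ∣ a i ∧ 1000 * |a i - a j - M * (g i - g j)| ≤ M := by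
  classical
  obtain ⟨e, he1, he2, he3, he4⟩ := exists_e n
  set Ps : Finset (Fin n × Fin n) := univ.filter (fun p => g p.2 < g p.1) with hPs
  set δ : Fin n × Fin n → ℤ := fun p => e p.1 - e p.2 with hδ
  set dd : Fin n × Fin n → ℤ := fun p => g p.1 - g p.2 with hdd
  set dt : Fin n × Fin n → Fin n × Fin n → ℤ := fun p q => dd q * δ p - dd p * δ q with hdt
  have hPm : ∀ p ∈ Ps, g p.2 < g p.1 := fun p hp => (mem_filter.1 hp).2
  have hne : ∀ p ∈ Ps, (p.1 : ℕ) ≠ p.2 := by
    intro p hp h
    have h1 := hPm p hp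
    have h2 : p.1 = p.2 := Fin.ext h
    rw [h2] at h1
    exact lt_irrefl _ h1
  have hδ0 : ∀ p ∈ Ps, δ p ≠ 0 := by
    intro p hp h
    have h1 := he2 p.1 p.1.2 p.2 p.2.2 (hne p hp)
    have h2 : e (p.1 : ℕ) - e (p.2 : ℕ) = 0 := h
    rw [h2, zero_dvd_iff] at h1
    have := he1 p.1 p.1.2
    omega
  have hd1 : ∀ p ∈ Ps, 1 ≤ dd p ∧ dd p ≤ 10 := by
    intro p hp
    have h1 := hPm p hp
    have h2 := hg0 p.2
    have h3 := hg p.1
    simp only [hdd]
    omega
  have hdt0 : ∀ p ∈ Ps, ∀ q ∈ Ps, p ≠ q → dt p q ≠ 0 := by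
    intro p hp q hq hpq h
    have h1 : dd q * (e p.1 - e p.2) = dd p * (e q.1 - e q.2) := by
      simp only [hdt, hδ] at h
      linarith
    obtain ⟨h2, h3⟩ := he4 p.1 p.1.2 p.2 p.2.2 q.1 q.1.2 q.2 q.2.2 (hne p hp) (hne q hq) (dd p)
      (dd q) (hd1 p hp).1 (hd1 p hp).2 (hd1 q hq).1 (hd1 q hq).2 h1
    exact hpq (Prod.ext (Fin.ext h2) (Fin.ext h3))
  obtain ⟨Δ, hΔ⟩ : ∃ Δ : ℤ, Δ = (∏ p ∈ Ps, |δ p|) * ∏ p ∈ Ps, ∏ q ∈ Ps.erase p, |dt p q| :=
    ⟨_, rfl⟩
  have hΔ0 : 0 < Δ := by
    rw [hΔ]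
    apply mul_pos
    · exact Finset.prod_pos fun p hp => abs_pos.2 (hδ0 p hp)
    · refine Finset.prod_pos fun p hp => Finset.prod_pos fun q hq => abs_pos.2 ?_
      exact hdt0 p hp q (mem_of_mem_erase hq) (ne_of_mem_erase hq).symm
  have hδΔ : ∀ p ∈ Ps, δ p ∣ Δ := by
    intro p hp
    rw [hΔ]
    apply Dvd.dvd.mul_right
    exact (self_dvd_abs _).trans (Finset.dvd_prod_of_mem (fun p => |δ p|) hp)
  have hdtΔ : ∀ p ∈ Ps, ∀ q ∈ Ps, p ≠ q → dt p q ∣ Δ := by
    intro p hp q hq hpq
    rw [hΔ]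
    apply Dvd.dvd.mul_left
    refine Dvd.dvd.trans ?_ (Finset.dvd_prod_of_mem (fun p => ∏ q ∈ Ps.erase p, |dt p q|) hp)
    exact (self_dvd_abs _).trans
      (Finset.dvd_prod_of_mem (fun q => |dt p q|) (mem_erase.2 ⟨hpq.symm, hq⟩))
  have hc : ∀ p : Fin n × Fin n, ∃ c : ℤ, p ∈ Ps → Δ = δ p * c := by
    intro p
    by_cases hp : p ∈ Ps
    · obtain ⟨c, hc⟩ := hδΔ p hp
      exact ⟨c, fun _ => hc⟩
    · exact ⟨0, fun h => absurd h hp⟩
  choose c hc using hc
  set F : Fin n × Fin n → ℤ := fun p => 1 + 1000 * dd p * Δ * c p with hF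
  set M : ℤ := 1000 * Δ ^ 2 with hM
  have hM0 : 0 < M := by positivity
  have hD : ∀ p ∈ Ps, M * dd p + δ p = δ p * F p := by
    intro p hp
    simp only [hF, hM]
    have h1 := hc p hp
    calc 1000 * Δ ^ 2 * dd p + δ p = 1000 * Δ * dd p * Δ + δ p := by ring
      _ = 1000 * Δ * dd p * (δ p * c p) + δ p := by rw [← h1]
      _ = _ := by ring
  have hcop1 : ∀ p ∈ Ps, IsCoprime (F p) Δ := by
    intro p _
    refine ⟨1, -(1000 * dd p * c p), ?_⟩
    simp only [hF]
    ring
  have hcop2 : ∀ p ∈ Ps, ∀ q ∈ Ps, p ≠ q → IsCoprime (F p) (F q) := by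
    intro p hp q hq hpq
    obtain ⟨r, hr⟩ := hdtΔ p hp q hq hpq
    have h1 : dd q * (δ p * F p) - dd p * (δ q * F q) = dt p q := by
      rw [← hD p hp, ← hD q hq]
      simp only [hdt]
      ring
    refine ⟨1 - (1000 * dd p * c p) * r * dd q * δ p, (1000 * dd p * c p) * r * dd p * δ q, ?_⟩
    have h2 : (1 - (1000 * dd p * c p) * r * dd q * δ p) * F p +
        (1000 * dd p * c p) * r * dd p * δ q * F q =
        F p - (1000 * dd p * c p) * ((dd q * (δ p * F p) - dd p * (δ q * F q)) * r) := by ring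
    rw [h2, h1, ← hr]
    simp only [hF]
    ring
  obtain ⟨x, hx1, hx2⟩ := crt Ps F (fun p => M * g p.1 + e p.1) Δ hcop1 hcop2
  obtain ⟨W, hW⟩ : ∃ W : ℤ, W = Δ * ∏ p ∈ Ps, F p := ⟨_, rfl⟩
  have hF0 : ∀ p, F p ≠ 0 := by
    intro p h
    simp only [hF] at h
    have h1 : 1000 * dd p * Δ * c p = 1000 * (dd p * Δ * c p) := by ring
    rw [h1] at h
    omega
  have hW0 : W ≠ 0 := by
    rw [hW]
    exact mul_ne_zero hΔ0.ne' (Finset.prod_ne_zero_iff.2 fun p _ => hF0 p)
  have hW1 : 1 ≤ W ^ 2 := by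
    have : 0 < W ^ 2 := by positivity
    omega
  obtain ⟨y, hy⟩ : ∃ y : ℤ, y = x + |x| * W ^ 2 := ⟨_, rfl⟩
  have hy0 : 0 ≤ y := by
    have h1 : |x| * 1 ≤ |x| * W ^ 2 := mul_le_mul_of_nonneg_left hW1 (abs_nonneg _)
    have h2 := neg_abs_le x
    rw [hy]
    linarith
  have hy1 : Δ ∣ y := by
    rw [hy]
    apply dvd_add hx1
    apply Dvd.dvd.mul_left
    rw [hW, pow_two]
    exact ((dvd_mul_right _ _).mul_right _)
  have hy2 : ∀ p ∈ Ps, F p ∣ y + (M * g p.1 + e p.1) := by
    intro p hp
    have h1 : y + (M * g p.1 + e p.1) = (x + (M * g p.1 + e p.1)) + |x| * W ^ 2 := by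
      rw [hy]; ring
    rw [h1]
    apply dvd_add (hx2 p hp)
    apply Dvd.dvd.mul_left
    have h2 : F p ∣ W := by
      rw [hW]
      exact (Finset.dvd_prod_of_mem F hp).mul_left _
    rw [pow_two]
    exact h2.mul_right _
  refine ⟨M, fun i => y + (M * g i + e i), hM0, ?_, ?_, ?_⟩
  · intro i
    have h1 := he1 i i.2
    have h2 : 0 ≤ M * g i := mul_nonneg hM0.le (hg0 i)
    simp only
    linarith
  · intro i j hij
    simp only at hij
    by_contra hne'
    have hne2 : (i : ℕ) ≠ j := fun h => hne' (Fin.ext h)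
    have h5 := he3 i i.2 j j.2 i i.2
    have hb : ∀ p ∈ Ps, |δ p| ≤ Δ := fun p hp => by
      have h1 := Int.le_of_dvd hΔ0 (hδΔ p hp)
      have h2 := Int.le_of_dvd hΔ0 ((neg_dvd.2 (hδΔ p hp)))
      exact abs_le.2 ⟨by linarith, h1⟩
    have hΔM : Δ < M := by
      rw [hM]
      nlinarith
    rcases lt_trichotomy (g i) (g j) with h | h | h
    · have hp : (j, i) ∈ Ps := mem_filter.2 ⟨mem_univ _, h⟩
      have h1 := (abs_le.1 (hb _ hp)).1
      have h2 : M * 1 ≤ M * (g j - g i) := mul_le_mul_of_nonneg_left (by omega) hM0.le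
      simp only [hδ] at h1
      linarith
    · rw [h] at hij
      have h6 : e i = e j := by linarith
      have h7 := he2 i i.2 j j.2 hne2
      rw [h6, sub_self, zero_dvd_iff] at h7
      have := he1 j j.2
      omega
    · have hp : (i, j) ∈ Ps := mem_filter.2 ⟨mem_univ _, h⟩
      have h1 := (abs_le.1 (hb _ hp)).1
      have h2 : M * 1 ≤ M * (g i - g j) := mul_le_mul_of_nonneg_left (by omega) hM0.le
      simp only [hδ] at h1
      linarith
  · intro i j hij
    have hp : (i, j) ∈ Ps := mem_filter.2 ⟨mem_univ _, hij⟩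
    have e1 : y + (M * g i + e i) - (y + (M * g j + e j)) = δ (i, j) * F (i, j) := by
      rw [← hD _ hp]
      simp only [hdd, hδ]
      ring
    constructor
    · rw [e1]
      apply IsCoprime.mul_dvd
      · have h1 := hcop1 _ hp
        exact (h1.of_isCoprime_of_dvd_right (hδΔ _ hp)).symm
      · have h1 : δ (i, j) ∣ e i := he2 i i.2 j j.2 (hne _ hp)
        have h2 : δ (i, j) ∣ M := by
          rw [hM, pow_two]
          exact ((hδΔ _ hp).mul_right _).mul_left _
        exact dvd_add ((hδΔ _ hp).trans hy1) (dvd_add (h2.mul_right _) h1)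
      · exact hy2 _ hp
    · have e2 : y + (M * g i + e i) - (y + (M * g j + e j)) - M * (g i - g j) = δ (i, j) := by
        simp only [hδ]
        ring
      rw [e2]
      have h1 := Int.le_of_dvd hΔ0 (hδΔ _ hp)
      have h2 := Int.le_of_dvd hΔ0 ((neg_dvd.2 (hδΔ _ hp)))
      have h3 : |δ (i, j)| ≤ Δ := abs_le.2 ⟨by linarith, h1⟩
      have h4 : Δ ≤ Δ ^ 2 := by nlinarith
      rw [hM]
      linarith

end Pool.Agent.J4.H49.EF
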