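import Mathlib

/-! Unit fractions: multiples of a large prime do not occur, and the ratio of the largest to the
smallest denominator. -/

set_option autoImplicit false

namespace Pool.Agent.J4.H49.EF

open Finset

/-- if `∑ 1/x = 1` over `S` and all elements of `S` are at most `C q`, with `q` a prime exceeding
`C * C!`, then `S` contains no multiple of `q` -/
theorem no_multiple {S : Finset ℕ} (h0 : 0 ∉ S) (hs : ∑ x ∈ S, (1 / (x : ℚ)) = 1) {q C : ℕ}
    (hq : q.Prime) (hC : C * C.factorial < q) (hb : ∀ x ∈ S, x ≤ q * C) :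
    ∀ x ∈ S, ¬ q ∣ x := by
  classical
  set S1 := S.filter (fun x => q ∣ x) with hS1
  set S2 := S.filter (fun x => ¬ q ∣ x) with hS2
  set P := ∏ x ∈ S2, x with hP
  set R := ∑ x ∈ S1, C.factorial / (x / q) with hR
  have hq0 : 0 < q := hq.pos
  have ht : ∀ x ∈ S1, 1 ≤ x / q ∧ x / q ≤ C ∧ x = q * (x / q) := by
    intro x hx
    rw [hS1, mem_filter] at hx
    have hx0 : x ≠ 0 := fun h => h0 (h ▸ hx.1)
    have e : x = q * (x / q) := (Nat.mul_div_cancel' hx.2).symm
    refine ⟨?_, ?_, e⟩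
    · rw [Nat.one_le_iff_ne_zero]
      intro h
      rw [h] at e
      exact hx0 (by simpa using e)
    · exact Nat.div_le_of_le_mul (hb x hx.1)
  have hid : (C.factorial * P * q : ℕ) = P * R + q * (C.factorial * ∑ x ∈ S2, P / x) := by
    have hcast : ((C.factorial * P * q : ℕ) : ℚ) =
        ((P * R + q * (C.factorial * ∑ x ∈ S2, P / x) : ℕ) : ℚ) := by
      have e1 : ((C.factorial * P * q : ℕ) : ℚ) =
          ((C.factorial * P * q : ℕ) : ℚ) * ∑ x ∈ S, (1 / (x : ℚ)) := by rw [hs, mul_one]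
      rw [e1, ← Finset.sum_filter_add_sum_filter_not S (fun x => q ∣ x), mul_add]
      push_cast
      congr 1
      · rw [hR]
        push_cast
        rw [Finset.mul_sum, Finset.mul_sum]
        refine Finset.sum_congr rfl fun x hx => ?_
        obtain ⟨h1, h2, h3⟩ := ht x hx
        have hd : x / q ∣ C.factorial := Nat.dvd_factorial h1 h2
        have hne : ((x / q : ℕ) : ℚ) ≠ 0 := by
          have : x / q ≠ 0 := by omega
          exact_mod_cast this
        have hqq : (q : ℚ) ≠ 0 := by exact_mod_cast hq0.ne'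
        have hx' : (x : ℚ) = q * ((x / q : ℕ) : ℚ) := by exact_mod_cast h3
        rw [Nat.cast_div hd hne, hx']
        field_simp
      · rw [Finset.mul_sum, Finset.mul_sum, Finset.mul_sum]
        refine Finset.sum_congr rfl fun x hx => ?_
        have hxS : x ∈ S := (mem_filter.1 hx).1
        have hx0 : x ≠ 0 := fun h => h0 (h ▸ hxS)
        have hd : x ∣ P := Finset.dvd_prod_of_mem (fun x => x) hx
        have hne : (x : ℚ) ≠ 0 := by exact_mod_cast hx0
        rw [Nat.cast_div hd hne]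
        ring
    exact_mod_cast hcast
  have hqPR : q ∣ P * R := by
    have h1 : q ∣ P * R + q * (C.factorial * ∑ x ∈ S2, P / x) := by
      rw [← hid]
      exact dvd_mul_left _ _
    exact (Nat.dvd_add_left (dvd_mul_right _ _)).1 h1
  have hqP : ¬ q ∣ P := by
    intro h
    obtain ⟨x, hx, hx2⟩ := (hq.prime.dvd_finsetProd_iff (fun x => x)).1 h
    rw [hS2, mem_filter] at hx
    exact hx.2 hx2
  have hqR : q ∣ R := (hq.dvd_mul.1 hqPR).resolve_left hqP
  have hcard : S1.card ≤ C := by
    have hinj : Set.InjOn (fun x => x / q) S1 := by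
      intro x hx y hy hxy
      have h1 := (ht x hx).2.2
      have h2 := (ht y hy).2.2
      simp only at hxy
      rw [h1, h2, hxy]
    have h1 : (S1.image (fun x => x / q)) ⊆ Icc 1 C := by
      intro t ht'
      obtain ⟨x, hx, rfl⟩ := mem_image.1 ht'
      exact mem_Icc.2 ⟨(ht x hx).1, (ht x hx).2.1⟩
    have h2 := card_le_card h1
    rw [card_image_of_injOn hinj, Nat.card_Icc] at h2
    omega
  have hRle : R ≤ C * C.factorial := by
    calc R ≤ ∑ _x ∈ S1, C.factorial := Finset.sum_le_sum fun x _ => Nat.div_le_self _ _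
      _ = S1.card * C.factorial := by rw [sum_const, smul_eq_mul]
      _ ≤ C * C.factorial := Nat.mul_le_mul_right _ hcard
  have hR0 : R = 0 := Nat.eq_zero_of_dvd_of_lt hqR (lt_of_le_of_lt hRle hC)
  intro x hx hqx
  have hx1 : x ∈ S1 := mem_filter.2 ⟨hx, hqx⟩
  have h1 : C.factorial / (x / q) = 0 := (Finset.sum_eq_zero_iff.1 hR0) x hx1
  obtain ⟨h2, h3, -⟩ := ht x hx1
  have h4 : 0 < C.factorial / (x / q) :=
    Nat.div_pos (Nat.le_of_dvd (Nat.factorial_pos _) (Nat.dvd_factorial h2 h3)) h2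
  omega

/-- the harmonic sum over `(a, b]` is at most `log (b / a)` -/
theorem sum_Ioc_le (a b : ℕ) (ha : 0 < a) (hab : a ≤ b) :
    ∑ x ∈ Ioc a b, (1 / (x : ℝ)) ≤ Real.log b - Real.log a := by
  induction b, hab using Nat.le_induction with
  | base => simp
  | succ b hab ih =>
    have e : Ioc a (b + 1) = insert (b + 1) (Ioc a b) := by
      ext x
      simp only [mem_Ioc, mem_insert]
      omega
    rw [e, sum_insert (by simp)]
    have hb : (0 : ℝ) < b := by exact_mod_cast (by omega : 0 < b)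
    have h1 : 1 / (((b + 1 : ℕ)) : ℝ) ≤ Real.log ((b + 1 : ℕ) : ℝ) - Real.log b := by
      push_cast
      rw [← Real.log_div (by positivity) hb.ne']
      have h2 := Real.one_sub_inv_le_log_of_pos (x := ((b : ℝ) + 1) / b) (by positivity)
      have h3 : 1 - (((b : ℝ) + 1) / b)⁻¹ = 1 / ((b : ℝ) + 1) := by
        field_simp
        ring
      rw [h3] at h2
      exact h2
    linarith

/-- the smallest element `a` of a solution with all elements at most `b` satisfies
`exp 1 * (a - 1) ≤ b` -/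
theorem min_le {S : Finset ℕ} (hs : ∑ x ∈ S, (1 / (x : ℚ)) = 1) {a b : ℕ} (ha : 0 < a)
    (hab : a ≤ b) (hSa : ∀ x ∈ S, a < x) (hSb : ∀ x ∈ S, x ≤ b) : Real.exp 1 * a ≤ b := by
  have h1 : (1 : ℝ) = ∑ x ∈ S, (1 / (x : ℝ)) := by
    have h0 : ((∑ x ∈ S, (1 / (x : ℚ)) : ℚ) : ℝ) = ((1 : ℚ) : ℝ) := by rw [hs]
    push_cast at h0
    exact h0.symm
  have h2 : ∑ x ∈ S, (1 / (x : ℝ)) ≤ ∑ x ∈ Ioc a b, (1 / (x : ℝ)) := by
    apply Finset.sum_le_sum_of_subset_of_nonneg
    · intro x hx
      exact mem_Ioc.2 ⟨hSa x hx, hSb x hx⟩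
    · intro x _ _
      positivity
  have h3 := sum_Ioc_le a b ha hab
  have ha' : (0 : ℝ) < a := by exact_mod_cast ha
  have hb' : (0 : ℝ) < b := by exact_mod_cast (by omega : 0 < b)
  have h4 : 1 + Real.log a ≤ Real.log b := by linarith
  have h5 := Real.exp_le_exp.2 h4
  rw [Real.exp_add, Real.exp_log ha', Real.exp_log hb'] at h5
  exact h5

end Pool.Agent.J4.H49.EF
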