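import Mathlib
import Pool.Agent.J4.H49.EF.Exc
import Pool.Agent.J4.H49.EF.Cfg

/-! All but finitely many unit fraction representations of `1` have two consecutive denominators at
distance at least `3`: the deduction from the coloured Maynard-Tao theorem in a narrow window. -/

set_option autoImplicit false

namespace Pool.Agent.J4.H49.EF

open Finset Filter

open Classical in
/-- the coloured theorem with the constant `18 / 5` in a narrow window, positive forms -/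
def CoreWin : Prop := ∀ c₁ c₂ : ℝ, 1 / 8 ≤ c₁ → c₁ < c₂ → c₂ ≤ 1 / 4 → ∀ T M : ℕ, 1 ≤ T →
  (18 / 5 : ℝ) * M < T → ∃ K : ℕ, 2 ≤ K ∧ ∀ (a b : Fin (T * K) → ℕ) (cl : Fin (T * K) → Fin T),
    (∀ g, (univ.filter (fun i => cl i = g)).card = K) → (∀ i, 1 ≤ a i) → (∀ i, 1 ≤ b i) →
    (∀ i j, i ≠ j → a i * b j ≠ a j * b i) →
    (∀ p : ℕ, p.Prime → ∃ n : ℕ, ¬ p ∣ n ∧ ∀ i, ¬ p ∣ a i * n + b i) →
    ∀ᶠ N : ℕ in atTop, ∃ n : ℕ, c₁ * N ≤ n ∧ (n : ℝ) ≤ c₂ * N ∧
      M + 1 ≤ (univ.filter (fun g : Fin T => ∃ i, cl i = g ∧ (a i * n + b i).Prime)).card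

/-- four of the numbers `0, ..., 10` contain two with difference between `3` and `8` -/
theorem window (s : Finset (Fin 11)) (hs : 3 + 1 ≤ s.card) :
    ∃ i ∈ s, ∃ j ∈ s, (j : ℕ) + 3 ≤ i ∧ (i : ℕ) ≤ j + 8 := by
  obtain ⟨t, hts, ht⟩ := Finset.exists_subset_card_eq hs
  have ho := fun i : Fin 4 => t.orderEmbOfFin_mem ht i
  set f := t.orderEmbOfFin ht with hf
  have m01 : f 0 < f 1 := f.strictMono (by decide)
  have m12 : f 1 < f 2 := f.strictMono (by decide)
  have m23 : f 2 < f 3 := f.strictMono (by decide)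
  have h0 := hts (ho 0)
  have h1 := hts (ho 1)
  have h2 := hts (ho 2)
  have h3 := hts (ho 3)
  have b0 := (f 0).2
  have b3 := (f 3).2
  rw [Fin.lt_def] at m01 m12 m23
  by_cases c1 : (f 3 : ℕ) ≤ f 0 + 8
  · exact ⟨f 3, h3, f 0, h0, by omega, c1⟩
  · by_cases c2 : (f 0 : ℕ) + 3 ≤ f 2 ∧ (f 2 : ℕ) ≤ f 0 + 8
    · exact ⟨f 2, h2, f 0, h0, c2⟩
    · by_cases c3 : (f 1 : ℕ) + 3 ≤ f 3 ∧ (f 3 : ℕ) ≤ f 1 + 8
      · exact ⟨f 3, h3, f 1, h1, c3⟩
      · by_cases c4 : (f 0 : ℕ) + 3 ≤ f 1 ∧ (f 1 : ℕ) ≤ f 0 + 8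
        · exact ⟨f 1, h1, f 0, h0, c4⟩
        · by_cases c5 : (f 1 : ℕ) + 3 ≤ f 2 ∧ (f 2 : ℕ) ≤ f 1 + 8
          · exact ⟨f 2, h2, f 1, h1, c5⟩
          · exact ⟨f 3, h3, f 2, h2, by omega, by omega⟩

/-- admissibility of the forms `α i * n + 1` -/
theorem adm (k : ℕ) (α : Fin k → ℕ) (hα : ∀ i, (k + 1).factorial ∣ α i) (p : ℕ) (hp : p.Prime) :
    ∃ n : ℕ, ¬ p ∣ n ∧ ∀ i, ¬ p ∣ α i * n + 1 := by
  by_cases hpk : p ≤ k + 1
  · refine ⟨1, ?_, ?_⟩
    · intro h
      exact hp.one_lt.ne' (Nat.dvd_one.1 h)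
    · intro i h
      have h1 : p ∣ α i * 1 := by
        rw [mul_one]
        exact (Nat.dvd_factorial hp.pos hpk).trans (hα i)
      have h2 := (Nat.dvd_add_right h1).1 h
      exact hp.one_lt.ne' (Nat.dvd_one.1 h2)
  · by_contra hcon
    push Not at hcon
    have hnd : ∀ n ∈ Icc 1 (k + 1), ¬ p ∣ n := by
      intro n hn h
      rw [mem_Icc] at hn
      have := Nat.le_of_dvd (by omega) h
      omega
    have hex : ∀ n : ℕ, ∃ i : Fin (k + 1), n ∈ Icc 1 (k + 1) →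
        ∃ hi : (i : ℕ) < k, p ∣ α ⟨i, hi⟩ * n + 1 := by
      intro n
      by_cases hn : n ∈ Icc 1 (k + 1)
      · obtain ⟨i, hi⟩ := hcon n (hnd n hn)
        exact ⟨⟨i, by omega⟩, fun _ => ⟨i.2, hi⟩⟩
      · exact ⟨0, fun h => absurd h hn⟩
    choose f hf using hex
    have hcard : (range k).card < (Icc 1 (k + 1)).card := by
      rw [card_range, Nat.card_Icc]
      omega
    obtain ⟨x, hx, y, hy, hxy, hfe⟩ := Finset.exists_ne_map_eq_of_card_lt_of_maps_to hcard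
      (f := fun n => (f n : ℕ)) (fun n hn => by
        rw [coe_range]
        exact (hf n (by exact_mod_cast hn)).1)
    obtain ⟨hi, h1⟩ := hf x hx
    obtain ⟨hj, h2⟩ := hf y hy
    have hfe' : (f x : ℕ) = f y := hfe
    simp only [hfe'] at h1
    set c := α ⟨(f y : ℕ), hj⟩ with hc
    rw [mem_Icc] at hx hy
    have hpc : ¬ (p : ℤ) ∣ c := by
      intro h
      have h3 : p ∣ c := by exact_mod_cast h
      have h4 := (Nat.dvd_add_right (h3.mul_right y)).1 h2
      exact hp.one_lt.ne' (Nat.dvd_one.1 h4)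
    have h3 : (p : ℤ) ∣ c * ((x : ℤ) - y) := by
      have h4 : (p : ℤ) ∣ (c : ℤ) * x + 1 := by exact_mod_cast h1
      have h5 : (p : ℤ) ∣ (c : ℤ) * y + 1 := by exact_mod_cast h2
      have h6 := dvd_sub h4 h5
      have h7 : (c : ℤ) * x + 1 - ((c : ℤ) * y + 1) = c * ((x : ℤ) - y) := by ring
      rw [h7] at h6
      exact h6
    have hpz : Prime (p : ℤ) := Nat.prime_iff_prime_int.1 hp
    have h4 := (hpz.dvd_or_dvd h3).resolve_left hpc
    have h5 : (x : ℤ) - y = 0 := by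
      apply Int.eq_zero_of_abs_lt_dvd h4
      rw [abs_lt]
      constructor <;> omega
    apply hxy
    omega

theorem exists_cl (T K : ℕ) : ∃ cl : Fin (T * K) → Fin T,
    ∀ g, (univ.filter (fun i => cl i = g)).card = K := by
  classical
  obtain ⟨e, -⟩ : ∃ e : Fin T × Fin K ≃ Fin (T * K), True := ⟨finProdFinEquiv, trivial⟩
  refine ⟨fun i => (e.symm i).1, ?_⟩
  intro g
  have h1 : (univ.filter (fun i => (e.symm i).1 = g)) =
      univ.image (fun j : Fin K => e (g, j)) := by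
    ext i
    simp only [mem_filter, mem_univ, true_and, mem_image]
    constructor
    · intro h
      refine ⟨(e.symm i).2, ?_⟩
      have h2 : (g, (e.symm i).2) = e.symm i := by
        rw [← h]
      rw [h2, Equiv.apply_symm_apply]
    · rintro ⟨j, rfl⟩
      simp
  rw [h1, Finset.card_image_of_injective _ (by
    intro j j' h
    have := e.injective h
    simpa using this)]
  simp

/-- two consecutive integers with large prime factors and bounded cofactors, in a prescribed narrow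
range -/
theorem pair_of_core (H : CoreWin) : ∃ A : ℕ, 1 ≤ A ∧ ∀ᶠ b : ℕ in atTop, ∃ u q q' : ℕ,
    q.Prime ∧ q'.Prime ∧ q ∣ u ∧ q' ∣ u + 1 ∧ A * A.factorial < q ∧ A * A.factorial < q' ∧
    b ≤ q * A ∧ b ≤ q' * A ∧ (0.3679 : ℝ) * b ≤ u ∧ u + 2 ≤ b := by
  classical
  obtain ⟨K, hK2, hK⟩ := H 0.249 (1 / 4) (by norm_num) (by norm_num) le_rfl 11 3 (by norm_num)
    (by norm_num)
  obtain ⟨cl, hclc⟩ := exists_cl 11 K
  obtain ⟨M, a, hM, ha, hinj, hpair⟩ := exists_a (11 * K) (fun i => ((cl i : ℕ) : ℤ))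
    (fun i => by positivity) (fun i => by have := (cl i).2; omega)
  obtain ⟨an, han⟩ : ∃ an : Fin (11 * K) → ℕ, ∀ i, (an i : ℤ) = a i :=
    ⟨fun i => (a i).toNat, fun i => Int.toNat_of_nonneg (ha i).le⟩
  have han0 : ∀ i, 1 ≤ an i := by
    intro i
    have h1 := ha i
    rw [← han] at h1
    exact_mod_cast h1
  obtain ⟨α, hα⟩ : ∃ α : Fin (11 * K) → ℕ, ∀ i, α i = (11 * K + 1).factorial * ∏ j ∈ univ.erase i, an j :=
    ⟨_, fun i => rfl⟩
  obtain ⟨A, hA⟩ : ∃ A : ℕ, A = (11 * K + 1).factorial * ∏ j, an j := ⟨_, rfl⟩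
  have hAα : ∀ i, an i * α i = A := by
    intro i
    rw [hα, hA, ← Finset.mul_prod_erase univ an (mem_univ i)]
    ring
  have hA0 : 0 < A := by
    rw [hA]
    exact Nat.mul_pos (Nat.factorial_pos _) (Finset.prod_pos fun j _ => han0 j)
  have hα0 : ∀ i, 1 ≤ α i := by
    intro i
    rw [Nat.one_le_iff_ne_zero]
    intro h
    have := hAα i
    rw [h, mul_zero] at this
    omega
  have hev := hK α (fun _ => 1) cl hclc hα0 (fun _ => le_rfl) (by
    intro i j hij h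
    rw [mul_one, mul_one] at h
    apply hij
    apply hinj
    rw [← han, ← han]
    have h1 := hAα i
    have h2 := hAα j
    rw [h, ← h2] at h1
    exact_mod_cast Nat.eq_of_mul_eq_mul_right (hα0 j) h1) (fun p hp => adm (11 * K) α (fun i => by
      rw [hα]
      exact dvd_mul_right _ _) p hp)
  refine ⟨A, hA0, ?_⟩
  have hMR : (0 : ℝ) < M := by exact_mod_cast hM
  have hM1 : (1 : ℝ) ≤ M := by exact_mod_cast hM
  have hAR : (0 : ℝ) < A := by exact_mod_cast hA0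
  obtain ⟨ρ, hρ⟩ : ∃ ρ : ℝ, ρ = 11.93 * M / A := ⟨_, rfl⟩
  have hρ0 : 0 < ρ := by rw [hρ]; positivity
  have hρA : ρ * A = 11.93 * M := by
    rw [hρ]
    field_simp
  obtain ⟨am, ham⟩ : ∃ am : ℕ, am = ∑ i, an i := ⟨_, rfl⟩
  have hamle : ∀ i, an i ≤ am := fun i => by
    rw [ham]
    exact Finset.single_le_sum (f := an) (fun j _ => Nat.zero_le _) (Finset.mem_univ i)
  -- the parameter `N`
  have ht : Tendsto (fun b : ℕ => ⌊ρ * b⌋₊) atTop atTop := by
    apply tendsto_nat_floor_atTop.comp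
    exact Tendsto.const_mul_atTop hρ0 tendsto_natCast_atTop_atTop
  have hev' := ht.eventually hev
  have hbig : ∀ᶠ b : ℕ in atTop,
      (1000 * (am + 2 + A) + (A * A.factorial + 1) * (A + 1) : ℝ) ≤ b :=
    tendsto_natCast_atTop_atTop.eventually_ge_atTop _
  filter_upwards [hev', hbig] with b hb hbb
  obtain ⟨n, hn1, hn2, hn3⟩ := hb
  obtain ⟨g', hg', g, hg, hgg1, hgg2⟩ := window _ hn3
  obtain ⟨i, hi, hpi⟩ := (mem_filter.1 hg').2
  obtain ⟨j, hj, hpj⟩ := (mem_filter.1 hg).2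
  have hij : ((cl j : ℕ) : ℤ) < ((cl i : ℕ) : ℤ) := by
    rw [hi, hj]
    omega
  obtain ⟨hdv, hcl2⟩ := hpair i j hij
  obtain ⟨D, hD⟩ : ∃ D : ℤ, D = a i - a j := ⟨_, rfl⟩
  rw [← hD] at hdv hcl2
  obtain ⟨dd, hdd⟩ : ∃ dd : ℤ, dd = ((cl i : ℕ) : ℤ) - ((cl j : ℕ) : ℤ) := ⟨_, rfl⟩
  rw [← hdd] at hcl2
  have hdd1 : 3 ≤ dd := by rw [hdd, hi, hj]; omega
  have hdd2 : dd ≤ 8 := by rw [hdd, hi, hj]; omega
  have hcl3 : 1000 * (M * dd - D) ≤ M ∧ 1000 * (D - M * dd) ≤ M := by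
    have h1 := le_abs_self (D - M * dd)
    have h2 := neg_abs_le (D - M * dd)
    constructor <;> linarith
  have hMd1 : M * 3 ≤ M * dd := mul_le_mul_of_nonneg_left hdd1 hM.le
  have hMd2 : M * dd ≤ M * 8 := mul_le_mul_of_nonneg_left hdd2 hM.le
  have hD1 : 2999 * M ≤ 1000 * D := by linarith [hcl3.1]
  have hD2 : 1000 * D ≤ 8001 * M := by linarith [hcl3.2]
  have hD0 : 0 < D := by linarith
  obtain ⟨Dn, hDn⟩ : ∃ Dn : ℕ, (Dn : ℤ) = D := ⟨D.toNat, Int.toNat_of_nonneg hD0.le⟩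
  have hDn0 : 0 < Dn := by
    rw [← hDn] at hD0
    exact_mod_cast hD0
  have hdvi : Dn ∣ an i := by
    have : (Dn : ℤ) ∣ (an i : ℤ) := by rw [hDn, han]; exact hdv
    exact_mod_cast this
  have hdvj : Dn ∣ an j := by
    have h1 : D ∣ a j := by
      have : a j = a i - D := by rw [hD]; ring
      rw [this]
      exact dvd_sub hdv dvd_rfl
    have : (Dn : ℤ) ∣ (an j : ℤ) := by rw [hDn, han]; exact h1
    exact_mod_cast this
  obtain ⟨mi, hmi⟩ := hdvi
  obtain ⟨mj, hmj⟩ := hdvj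
  obtain ⟨q, hq⟩ : ∃ q : ℕ, q = α j * n + 1 := ⟨_, rfl⟩
  obtain ⟨q', hq'⟩ : ∃ q' : ℕ, q' = α i * n + 1 := ⟨_, rfl⟩
  rw [← hq'] at hpi
  rw [← hq] at hpj
  have e1 : Dn * (mj * q) = A * n + an j := by
    calc Dn * (mj * q) = (Dn * mj) * q := by ring
      _ = an j * q := by rw [← hmj]
      _ = (an j * α j) * n + an j := by rw [hq]; ring
      _ = _ := by rw [hAα]
  have e2 : Dn * (mi * q') = A * n + an i := by
    calc Dn * (mi * q') = (Dn * mi) * q' := by ring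
      _ = an i * q' := by rw [← hmi]
      _ = (an i * α i) * n + an i := by rw [hq']; ring
      _ = _ := by rw [hAα]
  have e3 : an i = an j + Dn := by
    have : (an i : ℤ) = an j + Dn := by
      rw [han, han, hDn, hD]
      ring
    exact_mod_cast this
  have e4 : mi * q' = mj * q + 1 := by
    apply Nat.eq_of_mul_eq_mul_left hDn0
    rw [mul_add, e1, e2, e3]
    ring
  -- sizes
  have hbR : (0 : ℝ) ≤ b := Nat.cast_nonneg _
  have hamR : (0 : ℝ) ≤ am := Nat.cast_nonneg _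
  have hfl1 : (⌊ρ * b⌋₊ : ℝ) ≤ ρ * b := Nat.floor_le (by positivity)
  have hfl2 : ρ * b < (⌊ρ * b⌋₊ : ℝ) + 1 := Nat.lt_floor_add_one _
  have hn1' : (0.249 : ℝ) * (ρ * b - 1) ≤ n := by linarith
  have hn2' : (n : ℝ) ≤ 1 / 4 * (ρ * b) := by linarith
  have hAn1 : (2.97057 : ℝ) * M * b - 0.249 * A ≤ A * n := by
    have h1 : (A : ℝ) * (0.249 * (ρ * b - 1)) ≤ A * n := mul_le_mul_of_nonneg_left hn1' hAR.le
    have h2 : (A : ℝ) * (0.249 * (ρ * b - 1)) = 0.249 * (ρ * A) * b - 0.249 * A := by ring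
    rw [h2, hρA] at h1
    linarith
  have hAn2 : (A : ℝ) * n ≤ (2.9825 : ℝ) * M * b := by
    have h1 : (A : ℝ) * n ≤ A * (1 / 4 * (ρ * b)) := mul_le_mul_of_nonneg_left hn2' hAR.le
    have h2 : (A : ℝ) * (1 / 4 * (ρ * b)) = 1 / 4 * (ρ * A) * b := by ring
    rw [h2, hρA] at h1
    linarith
  have hDR : (Dn : ℝ) = (D : ℝ) := by
    have : ((Dn : ℤ) : ℝ) = (D : ℝ) := by rw [hDn]
    simpa using this
  have hDR1 : (2.999 : ℝ) * (M : ℝ) ≤ Dn := by
    rw [hDR]
    have : (2999 : ℝ) * M ≤ 1000 * D := by exact_mod_cast hD1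
    linarith
  have hDR2 : (Dn : ℝ) ≤ (8.001 : ℝ) * M := by
    rw [hDR]
    have : (1000 : ℝ) * D ≤ 8001 * M := by exact_mod_cast hD2
    linarith
  have hDn0R : (0 : ℝ) < Dn := by exact_mod_cast hDn0
  have e1R : (Dn : ℝ) * ((mj * q : ℕ) : ℝ) = A * n + an j := by exact_mod_cast e1
  have hanj : (an j : ℝ) ≤ am := by exact_mod_cast hamle j
  have hanj0 : (0 : ℝ) ≤ an j := Nat.cast_nonneg _
  have hAA : (0 : ℝ) ≤ (A * A.factorial + 1) * (A + 1) := by positivity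
  have hMb : (b : ℝ) ≤ M * b := le_mul_of_one_le_left hbR hM1
  -- lower bound for `n`
  have hAnb : (b : ℝ) ≤ A * n := by
    have h1 : 0 ≤ (M : ℝ) * b := by positivity
    linarith
  have hAnb' : b ≤ A * n := by exact_mod_cast hAnb
  have hqn : n ≤ q := by
    rw [hq]
    have := Nat.le_mul_of_pos_left n (hα0 j)
    omega
  have hqn' : n ≤ q' := by
    rw [hq']
    have := Nat.le_mul_of_pos_left n (hα0 i)
    omega
  have hnbig : A * A.factorial < n := by
    by_contra hcon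
    have h1 : n ≤ A * A.factorial := not_lt.1 hcon
    have h2 : A * n ≤ A * (A * A.factorial) := Nat.mul_le_mul_left _ h1
    have h3 : (b : ℝ) ≤ A * (A * A.factorial) := by exact_mod_cast hAnb'.trans h2
    have h4 : (0 : ℝ) ≤ (A.factorial : ℝ) := Nat.cast_nonneg _
    nlinarith [mul_nonneg hAR.le h4]
  refine ⟨mj * q, q, q', hpj, hpi, dvd_mul_left _ _, ?_, by omega, by omega, ?_, ?_, ?_, ?_⟩
  · rw [← e4]
    exact dvd_mul_left _ _
  · calc b ≤ A * n := hAnb'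
      _ ≤ A * q := Nat.mul_le_mul_left _ hqn
      _ = q * A := mul_comm _ _
  · calc b ≤ A * n := hAnb'
      _ ≤ A * q' := Nat.mul_le_mul_left _ hqn'
      _ = q' * A := mul_comm _ _
  · -- lower bound
    have h1 : (0.3679 : ℝ) * b * Dn ≤ ((mj * q : ℕ) : ℝ) * Dn := by
      have h2 : (0.3679 : ℝ) * b * Dn ≤ 0.3679 * b * (8.001 * M) :=
        mul_le_mul_of_nonneg_left hDR2 (by positivity)
      have h3 : ((mj * q : ℕ) : ℝ) * Dn = A * n + an j := by rw [mul_comm]; exact e1R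
      rw [h3]
      have h4 : (0.3679 : ℝ) * b * (8.001 * M) = 2.9435679 * (M * b) := by ring
      rw [h4] at h2
      linarith
    exact le_of_mul_le_mul_right h1 hDn0R
  · -- upper bound
    have h1 : (((mj * q : ℕ) : ℝ) + 2) * Dn ≤ (b : ℝ) * Dn := by
      have h3 : ((mj * q : ℕ) : ℝ) * Dn = A * n + an j := by rw [mul_comm]; exact e1R
      rw [add_mul, h3]
      have h5 : (2.999 * (M : ℝ)) * (b - 2) ≤ Dn * (b - 2) := by
        apply mul_le_mul_of_nonneg_right hDR1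
        linarith
      have h6 : 1000 * ((am : ℝ) + 2 + A) * M ≤ b * M :=
        mul_le_mul_of_nonneg_right (by linarith) hMR.le
      have h7 : (am : ℝ) ≤ am * M := le_mul_of_one_le_right hamR hM1
      have h8 : (0 : ℝ) ≤ A * M := mul_nonneg hAR.le hMR.le
      have h9 : (0 : ℝ) ≤ am * M := mul_nonneg hamR hMR.le
      linarith
    have h2 := le_of_mul_le_mul_right h1 hDn0R
    exact_mod_cast h2

/-- a unit fraction representation of `1` with distinct denominators, at least two of them -/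
def IsSolution (S : Finset ℕ) : Prop :=
  2 ≤ S.card ∧ 0 ∉ S ∧ ∑ x ∈ S, (1 / (x : ℚ)) = 1

/-- two consecutive elements `x < y` of `S` with `y - x ≥ m` -/
def HasGap (S : Finset ℕ) (m : ℕ) : Prop :=
  ∃ x ∈ S, ∃ y ∈ S, x + m ≤ y ∧ ∀ z ∈ S, z ≤ x ∨ y ≤ z

theorem finite_of_core (H : CoreWin) : {S : Finset ℕ | IsSolution S ∧ ¬ HasGap S 3}.Finite := by
  classical
  obtain ⟨A, hA, hev⟩ := pair_of_core H
  obtain ⟨B, hB⟩ := eventually_atTop.1 hev
  apply (Finset.finite_toSet (Finset.powerset (Finset.range B))).subset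
  rintro S ⟨⟨hc, h0, hs⟩, hgap⟩
  rw [Finset.mem_coe, Finset.mem_powerset]
  by_contra hsub
  apply hgap
  have hne : S.Nonempty := Finset.card_pos.1 (by omega)
  obtain ⟨b, hbS, hbmax⟩ := S.exists_max_image id hne
  simp only [id] at hbmax
  have hbB : B ≤ b := by
    by_contra h
    apply hsub
    intro x hx
    have := hbmax x hx
    rw [mem_range]
    omega
  obtain ⟨u, q, q', hq, hq', hqu, hqu', hqA, hqA', hbq, hbq', hlow, hup⟩ := hB b hbB
  have hu : u ∉ S := fun h => no_multiple h0 hs hq hqA (fun x hx => (hbmax x hx).trans hbq) u h hqu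
  have hu1 : u + 1 ∉ S := fun h =>
    no_multiple h0 hs hq' hqA' (fun x hx => (hbmax x hx).trans hbq') (u + 1) h hqu'
  -- an element below `u`
  have hbelow : (S.filter (fun x => x < u)).Nonempty := by
    by_contra hemp
    rw [Finset.not_nonempty_iff_eq_empty, Finset.filter_eq_empty_iff] at hemp
    have hlt : ∀ x ∈ S, u < x := by
      intro x hx
      have h1 := hemp hx
      have h2 : x ≠ u := fun h => hu (h ▸ hx)
      omega
    have hb0 : 0 < b := by omega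
    have hbR : (0 : ℝ) < b := by exact_mod_cast hb0
    have hu0 : 0 < u := by
      have h1 : (0 : ℝ) < u := lt_of_lt_of_le (by positivity) hlow
      exact_mod_cast h1
    have h1 := min_le hs hu0 (by omega) hlt hbmax
    have h2 := Real.exp_one_gt_d9
    have h3 : Real.exp 1 * (0.3679 * b) ≤ Real.exp 1 * u :=
      mul_le_mul_of_nonneg_left hlow (Real.exp_pos _).le
    have h4 : (2.7182818283 : ℝ) * (0.3679 * b) ≤ Real.exp 1 * (0.3679 * b) :=
      mul_le_mul_of_nonneg_right h2.le (by positivity)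
    nlinarith
  have habove : (S.filter (fun x => u + 1 < x)).Nonempty :=
    ⟨b, mem_filter.2 ⟨hbS, by omega⟩⟩
  obtain ⟨x, hx, hxmax⟩ := (S.filter (fun x => x < u)).exists_max_image id hbelow
  obtain ⟨y, hy, hymin⟩ := (S.filter (fun x => u + 1 < x)).exists_min_image id habove
  simp only [id] at hxmax hymin
  rw [mem_filter] at hx hy
  refine ⟨x, hx.1, y, hy.1, by omega, ?_⟩
  intro z hz
  have h1 : z ≠ u := fun h => hu (h ▸ hz)
  have h2 : z ≠ u + 1 := fun h => hu1 (h ▸ hz)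
  rcases lt_or_ge z u with h3 | h3
  · exact Or.inl (hxmax z (mem_filter.2 ⟨hz, h3⟩))
  · exact Or.inr (hymin z (mem_filter.2 ⟨hz, by omega⟩))

end Pool.Agent.J4.H49.EF
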