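import Mathlib
import Pool.Agent.J4.H49.EF.Main
import Pool.Agent.J4.H49.LW.FinalW
import Pool.Agent.W493.UN.WD

/-! The coloured Maynard-Tao theorem with the constant `18 / 5` for fixed linear forms in a narrow
window (after `Pool.Agent.Y827.GS.Qc`). -/

set_option autoImplicit false

namespace Pool.Agent.J4.H49.EF

open Finset Filter
open Pool.Agent.TH899.UG
open Pool.Agent.Y827.LS
open Pool.Agent.J4.H49.LW

theorem coreWin : CoreWin := by
  classical
  intro c₁ c₂ hc1 hc12 hc2 T M hT hTM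
  obtain ⟨K, hK, D₀, H⟩ := thmGW c₁ c₂ hc1 hc12 hc2 T M hT hTM
  refine ⟨K, hK, ?_⟩
  intro a b cl hcl ha hb hnp hadm
  obtain ⟨DW, hWF⟩ := Pool.Agent.W493.UN.WD.main
  set D : ℕ := D₀ + DW + ∑ i, a i with hD
  have haD : ∀ i, a i ≤ D := by
    intro i
    have h1 : a i ≤ ∑ i, a i :=
      Finset.single_le_sum (f := fun i => a i) (fun j _ => Nat.zero_le _) (Finset.mem_univ i)
    omega
  set α : Fin (T * K) → ℤ := fun i => (a i : ℤ) with hα
  set h : Fin (T * K) → ℤ := fun i => (b i : ℤ) with hh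
  have hα0 : ∀ i, α i ≠ 0 := fun i => by
    have := ha i
    simp only [hα]
    exact_mod_cast (by omega : a i ≠ 0)
  have hαD : ∀ i, (α i).natAbs ≤ D := fun i => by
    simp only [hα, Int.natAbs_natCast]
    exact haD i
  have hmain0 := H D (by omega) α cl (fun g => by convert hcl g) (fun _ => trivial) hα0 hαD (1 / 2)
    (by norm_num)
  have hHB : ∀ᶠ N : ℕ in atTop, HB h 0 N := by
    filter_upwards [eventually_ge_atTop (∑ i, b i)] with N hN i
    have h1 : b i ≤ ∑ i, b i :=
      Finset.single_le_sum (f := fun i => b i) (fun j _ => Nat.zero_le _) (Finset.mem_univ i)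
    have h2 : (b i : ℤ) ≤ N := by exact_mod_cast h1.trans hN
    have h3 : |(((0 : ℕ) : ℤ) + h i)| = (b i : ℤ) := by
      simp only [hh, Nat.cast_zero, zero_add]
      exact abs_of_nonneg (by positivity)
    rw [h3]
    have h4 : (0 : ℤ) ≤ N := by positivity
    linarith
  have hFm : ∀ (i : Fin (T * K)) (n : ℤ), Pool.Agent.W25.UN.Fm α h 0 i n = a i * n + b i := by
    intro i n
    unfold Pool.Agent.W25.UN.Fm
    simp [hα, hh]
  -- the residue class
  obtain ⟨-, -, -, -, hv⟩ := hWF D (by omega)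
  obtain ⟨v, hv⟩ := hv 0 (T * K) α h (by
    intro p hp
    obtain ⟨n, hn1, hn2⟩ := hadm p hp
    refine ⟨n, by exact_mod_cast hn1, fun i => ?_⟩
    rw [hFm]
    have := hn2 i
    exact_mod_cast this)
  have hnd : Nd α h 0 := by
    intro j l hjl
    rcases j with _ | j <;> rcases l with _ | l
    · exact absurd rfl hjl
    · simp only [Pool.Agent.W25.UN.uB, Pool.Agent.W25.UN.wB, hα, hh]
      have := hb l
      have h1 : (b l : ℤ) ≠ 0 := by exact_mod_cast (by omega : b l ≠ 0)
      simpa using h1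
    · simp only [Pool.Agent.W25.UN.uB, Pool.Agent.W25.UN.wB, hα, hh]
      have := hb j
      have h1 : (b j : ℤ) ≠ 0 := by exact_mod_cast (by omega : b j ≠ 0)
      simpa using h1
    · have hne : j ≠ l := fun h => hjl (by rw [h])
      have h1 := hnp j l hne
      simp only [Pool.Agent.W25.UN.uB, Pool.Agent.W25.UN.wB, hα, hh]
      intro h2
      apply h1
      have h3 : (a j : ℤ) * b l = a l * b j := by
        push_cast at h2
        linarith
      exact_mod_cast h3
  have hpos : ∀ N : ℕ, PosR α h 0 N := by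
    intro N i x hx1 hx2
    have h1 : (1 : ℝ) ≤ a i := by exact_mod_cast ha i
    have h2 : (0 : ℝ) ≤ b i := Nat.cast_nonneg _
    have h3 : (0 : ℝ) ≤ N := Nat.cast_nonneg _
    have h4 : x ≤ a i * x := le_mul_of_one_le_left (by linarith) h1
    simp only [hα, hh]
    push_cast
    linarith
  have hval : ∀ (n : ℕ) i, (Pool.Agent.W25.UN.Fm α h 0 i n).toNat = a i * n + b i := by
    intro n i
    rw [hFm]
    have h13 : ((a i : ℤ) * (n : ℤ) + b i) = ((a i * n + b i : ℕ) : ℤ) := by push_cast; ring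
    rw [h13, Int.toNat_natCast]
  filter_upwards [hmain0, hHB, eventually_ge_atTop 1] with N h1 h2 hN1
  have h3 := h1 h 0 h2 hnd (hpos N) v hv
  have hN0 : (0 : ℝ) < N := by exact_mod_cast hN1
  have h4 : (0 : ℝ) < (N : ℝ) ^ (1 - 1 / 2 : ℝ) := Real.rpow_pos_of_pos hN0 _
  have h5 := lt_of_lt_of_le h4 h3
  have h6 : 0 < (((Icc 1 N).filter (fun n : ℕ => n ≡ v [MOD (Pool.Agent.H410R2.WW D)] ∧
        c₁ * N ≤ n ∧ (n : ℝ) ≤ c₂ * N ∧
        M + 1 ≤ (univ.filter (fun g : Fin T => ∃ i, cl i = g ∧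
          (Pool.Agent.W25.UN.Fm α h 0 i n).toNat.Prime)).card)).card) := by
    exact_mod_cast h5
  obtain ⟨n, hn⟩ := Finset.card_pos.1 h6
  rw [Finset.mem_filter] at hn
  obtain ⟨-, -, h7, h8, h9⟩ := hn
  refine ⟨n, h7, h8, ?_⟩
  simp only [hval] at h9
  convert h9

/-- all but finitely many unit fraction representations of `1` have two consecutive denominators at
distance at least `3` -/
theorem main : {S : Finset ℕ | IsSolution S ∧ ¬ HasGap S 3}.Finite := finite_of_core coreWin

end Pool.Agent.J4.H49.EF
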